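import Pool.Agent.Work.MP_b29d7f_ns.Interface3
import Pool.Agent.Work.MP_b29d7f_nt.FF.Opt

/-!
# OPT: the first `|R/p|^l` elements of a simultaneous ordering are an optimal set
-/

set_option autoImplicit false
set_option linter.unusedSectionVars false

open Finset

namespace Pool.NS.OPT_

open Pool.Agent.Work.MP_b29d7f_nt.Ded
open Pool.Agent.Work.MP_b29d7f_nt.FF (prs cls sum_cls sum_cls_sq sum_val exists_level)

/-- twice the sum of the floors -/
theorem floor_id (n N : ℕ) (hN : 0 < N) :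
    2 * ((∑ k ∈ range n, k / N : ℕ) : ℤ) =
      2 * ((n / N : ℕ) : ℤ) * n - ((n / N : ℕ) : ℤ) * (((n / N : ℕ) : ℤ) + 1) * N := by
  induction n with
  | zero => simp
  | succ n ih =>
    rw [Finset.sum_range_succ, Nat.succ_div]
    by_cases h : N ∣ n + 1
    · rw [if_pos h]
      obtain ⟨m, hm⟩ := h
      have h1 : n / N + 1 = m := by
        have h2 : (n + 1) / N = n / N + 1 := by
          rw [Nat.succ_div, if_pos ⟨m, hm⟩]
        rw [← h2, hm, Nat.mul_div_cancel_left m hN]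
      have h3 : ((n : ℤ) + 1) = N * (((n / N : ℕ) : ℤ) + 1) := by
        have h4 : n + 1 = N * (n / N + 1) := by rw [h1]; exact hm
        exact_mod_cast h4
      generalize (∑ k ∈ range n, k / N) = s at ih ⊢
      generalize n / N = q at ih h3 ⊢
      push_cast
      linear_combination ih - 2 * h3
    · rw [if_neg h, add_zero]
      generalize (∑ k ∈ range n, k / N) = s at ih ⊢
      generalize n / N = q at ih ⊢
      push_cast
      linear_combination ih

theorem consecutive_nonneg (m : ℤ) : 0 ≤ m * (m - 1) := by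
  rcases le_or_gt m 0 with h | h
  · nlinarith
  · have : 0 ≤ m - 1 := by omega
    exact mul_nonneg h.le this

variable {R : Type} [CommRing R] [IsDedekindDomain R] [Ring.HasFiniteQuotients R]

theorem variance (I : Ideal R) [Fintype (R ⧸ I)] (hI : I ≠ ⊥) (a : ℕ → R) (n : ℕ) :
    ∑ ρ, ((cls I a n ρ : ℤ) - (n / Nm I : ℕ)) * ((cls I a n ρ : ℤ) - (n / Nm I : ℕ) - 1) =
      (prs I a n : ℤ) - 2 * ((∑ k ∈ range n, k / Nm I : ℕ) : ℤ) := by
  have hN : (Nm I : ℤ) = ∑ _ρ : R ⧸ I, (1 : ℤ) := by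
    rw [Finset.sum_const, Finset.card_univ, nsmul_eq_mul, mul_one]
    unfold Nm
    rw [Nat.card_eq_fintype_card]
  obtain ⟨r, hr⟩ : ∃ r : ℤ, r = ((n / Nm I : ℕ) : ℤ) := ⟨_, rfl⟩
  have h1 : ∑ ρ, ((cls I a n ρ : ℤ) - r) * ((cls I a n ρ : ℤ) - r - 1) =
      ((∑ ρ, cls I a n ρ * cls I a n ρ : ℕ) : ℤ)
      - (2 * r + 1) * ((∑ ρ, cls I a n ρ : ℕ) : ℤ) + r * (r + 1) * ∑ _ρ : R ⧸ I, (1 : ℤ) := by
    push_cast
    rw [Finset.mul_sum, Finset.mul_sum, ← Finset.sum_sub_distrib, ← Finset.sum_add_distrib]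
    exact Finset.sum_congr rfl fun ρ _ => by ring
  have h2 := floor_id n (Nm I) (Nm_pos hI)
  rw [← hr] at h2 ⊢
  rw [h1, sum_cls, sum_cls_sq, ← hN, h2]
  push_cast
  ring

/-- lower bound for the number of congruent pairs -/
theorem prs_ge {I : Ideal R} (hI : I ≠ ⊥) (a : ℕ → R) (n : ℕ) :
    2 * ∑ k ∈ range n, k / Nm I ≤ prs I a n := by
  have hfin : Finite (R ⧸ I) := Ring.HasFiniteQuotients.finiteQuotient hI
  have := Fintype.ofFinite (R ⧸ I)
  have h := variance I hI a n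
  have h0 : 0 ≤ ∑ ρ, ((cls I a n ρ : ℤ) - (n / Nm I : ℕ)) * ((cls I a n ρ : ℤ) - (n / Nm I : ℕ) - 1) :=
    Finset.sum_nonneg fun ρ _ => consecutive_nonneg _
  rw [h] at h0
  omega

/-- equality: all classes have `r` or `r + 1` elements -/
theorem cls_le {I : Ideal R} (hI : I ≠ ⊥) {a : ℕ → R} {n : ℕ}
    (h : prs I a n = 2 * ∑ k ∈ range n, k / Nm I) (ρ : R ⧸ I) : cls I a n ρ ≤ n / Nm I + 1 := by
  have hfin : Finite (R ⧸ I) := Ring.HasFiniteQuotients.finiteQuotient hI
  have := Fintype.ofFinite (R ⧸ I)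
  have h0 := variance I hI a n
  have h1 : (prs I a n : ℤ) - 2 * ((∑ k ∈ range n, k / Nm I : ℕ) : ℤ) = 0 := by
    rw [h]; push_cast; ring
  rw [h1] at h0
  have h2 := (Finset.sum_eq_zero_iff_of_nonneg fun ρ _ => consecutive_nonneg _).mp h0 ρ
    (Finset.mem_univ ρ)
  rcases mul_eq_zero.mp h2 with h3 | h3 <;> omega

variable [Infinite R]

/-- equality at every level for an ordering -/
theorem level_eq {p : Ideal R} (hp : p.IsPrime) (h0 : p ≠ ⊥) {a : ℕ → R}
    (ha : IsPOrdering Set.univ p a) (n : ℕ) {i : ℕ} (hi : 1 ≤ i) :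
    prs (p ^ i) a n = 2 * ∑ k ∈ range n, k / Nm (p ^ i) := by
  obtain ⟨J₀, hJ₀⟩ := exists_level hp h0 (ordering_injective hp h0 ha) n
  obtain ⟨J, hJ⟩ : ∃ J, J = J₀ + n + i := ⟨_, rfl⟩
  have hNJ : ∀ k < n, k < Nm p ^ (J + 1) := by
    intro k hk
    have h1 : k < 2 ^ k := Nat.lt_two_pow_self
    have h2 : 2 ^ k ≤ 2 ^ (J + 1) := Nat.pow_le_pow_right (by norm_num) (by omega)
    have h3 : 2 ^ (J + 1) ≤ Nm p ^ (J + 1) := Nat.pow_le_pow_left (one_lt_Nm hp h0) _
    omega
  have h1 := sum_val hp h0 (hJ₀ J (by omega))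
  have h2 : ∑ k ∈ range n, val p (∏ l ∈ (range n).erase k, (a k - a l)) =
      2 * ∑ k ∈ range n, val p (∏ l ∈ range k, (a k - a l)) := by
    rw [Finset.sum_congr rfl fun k _ => val_prod hp h0 ((range n).erase k) fun l => a k - a l]
    rw [sum_erase_symm (fun k l => val p (a k - a l)) (fun k l => val_sub_comm p _ _)]
    congr 1
    exact Finset.sum_congr rfl fun k _ => (val_prod hp h0 (range k) fun l => a k - a l).symm
  have h3 : ∑ k ∈ range n, val p (∏ l ∈ range k, (a k - a l)) ≤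
      ((∑ k ∈ range n, ∑ i ∈ Finset.Icc 1 J, k / Nm p ^ i : ℕ) : ℕ∞) := by
    rw [Nat.cast_sum]
    refine Finset.sum_le_sum fun k hk => ?_
    rw [Finset.mem_range] at hk
    exact ordering_val_le hp h0 ha (hNJ k hk)
  have h4 : ∑ i ∈ Finset.Icc 1 J, prs (p ^ i) a n ≤
      ∑ i ∈ Finset.Icc 1 J, 2 * ∑ k ∈ range n, k / Nm (p ^ i) := by
    have h5 : ((∑ i ∈ Finset.Icc 1 J, prs (p ^ i) a n : ℕ) : ℕ∞) ≤
        ((∑ i ∈ Finset.Icc 1 J, 2 * ∑ k ∈ range n, k / Nm (p ^ i) : ℕ) : ℕ∞) := by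
      rw [← h1, h2]
      refine (mul_le_mul_right h3 2).trans (le_of_eq ?_)
      rw [Finset.sum_comm, ← Finset.mul_sum]
      have h6 : ∑ y ∈ Finset.Icc 1 J, ∑ x ∈ range n, x / Nm p ^ y =
          ∑ i ∈ Finset.Icc 1 J, ∑ k ∈ range n, k / Nm (p ^ i) :=
        Finset.sum_congr rfl fun i _ => Finset.sum_congr rfl fun k _ => by rw [Nm_pow]
      rw [h6, Nat.cast_mul]
      rfl
    exact_mod_cast h5
  have h6 := (Finset.sum_eq_sum_iff_of_le (s := Finset.Icc 1 J)
    (f := fun i => 2 * ∑ k ∈ range n, k / Nm (p ^ i)) (g := fun i => prs (p ^ i) a n)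
    fun i _ => prs_ge (pow_ne_zero i h0) a n).mp
      (le_antisymm (Finset.sum_le_sum fun i _ => prs_ge (pow_ne_zero i h0) a n) h4)
  exact (h6 i (Finset.mem_Icc.mpr ⟨hi, by omega⟩)).symm

open scoped Classical in
/-- the potential of a term -/
theorem potential (hF : Stmt_FACT) (P : Data R) (hP0 : P.ln 0 = 0)
    (hP : ∀ x, x ≠ 0 → P.ln x = Real.log (nrm x)) {a : ℕ → R} {n X : ℕ}
    (hinj : Set.InjOn a (range n)) (hX : ∀ k ∈ range n, ∀ l ∈ range n, nrm (a k - a l) ≤ X)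
    {k : ℕ} (hk : k ∈ range n) :
    ∑ l ∈ range n, P.ln (a k - a l) =
      ∑ I ∈ ids R X, Lam I * ((((range n).erase k).filter fun l => a k - a l ∈ I).card : ℝ) := by
  have h1 : ∑ l ∈ range n, P.ln (a k - a l) = ∑ l ∈ (range n).erase k, P.ln (a k - a l) := by
    rw [← Finset.add_sum_erase _ _ hk, sub_self, hP0, zero_add]
  have h2 : ∀ l ∈ (range n).erase k, P.ln (a k - a l) =
      ∑ I ∈ ids R X, Lam I * (if a k - a l ∈ I then (1 : ℝ) else 0) := by
    intro l hl
    have hl' := Finset.mem_erase.mp hl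
    have hne : a k - a l ≠ 0 := by
      intro h
      exact hl'.1 (hinj (Finset.mem_coe.2 hk) (Finset.mem_coe.2 hl'.2) (sub_eq_zero.mp h)).symm
    rw [hP _ hne, (hF R).2.2.2 _ X hne (hX k hk l hl'.2), Finset.sum_filter]
    refine Finset.sum_congr rfl fun I _ => ?_
    by_cases h : a k - a l ∈ I
    · rw [if_pos h, if_pos h, mul_one]
    · rw [if_neg h, if_neg h, mul_zero]
  rw [h1, Finset.sum_congr rfl h2, Finset.sum_comm]
  refine Finset.sum_congr rfl fun I _ => ?_
  rw [← Finset.mul_sum, Finset.card_filter]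
  push_cast
  rfl

/-- the energy of a sequence -/
theorem energy (hF : Stmt_FACT) (P : Data R) (hP0 : P.ln 0 = 0)
    (hP : ∀ x, x ≠ 0 → P.ln x = Real.log (nrm x)) {a : ℕ → R} {n X : ℕ}
    (hinj : Set.InjOn a (range n)) (hX : ∀ k ∈ range n, ∀ l ∈ range n, nrm (a k - a l) ≤ X) :
    ∑ k ∈ range n, ∑ l ∈ range n, P.ln (a k - a l) = ∑ I ∈ ids R X, Lam I * (prs I a n : ℝ) := by
  classical
  rw [Finset.sum_congr rfl fun k hk => potential hF P hP0 hP hinj hX hk, Finset.sum_comm]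
  refine Finset.sum_congr rfl fun I _ => ?_
  rw [← Finset.mul_sum]
  unfold prs
  push_cast
  rfl

/-- a finite set as the set of the first terms of a sequence -/
theorem exists_seq (B : Finset R) : ∃ b : ℕ → R, Set.InjOn b (range B.card) ∧
    ∀ f : R → ℝ, ∑ x ∈ B, f x = ∑ k ∈ range B.card, f (b k) := by
  classical
  refine ⟨fun k => if h : k < B.card then (B.equivFin.symm ⟨k, h⟩ : R) else 0, ?_, ?_⟩
  · intro k hk l hl hkl
    rw [Finset.coe_range, Set.mem_Iio] at hk hl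
    simp only [dif_pos hk, dif_pos hl] at hkl
    have h1 := B.equivFin.symm.injective (Subtype.ext hkl)
    exact congrArg Fin.val h1
  · intro f
    rw [← Finset.sum_coe_sort B f, ← Equiv.sum_comp B.equivFin.symm, ← Fin.sum_univ_eq_sum_range
      (fun k => f (if h : k < B.card then (B.equivFin.symm ⟨k, h⟩ : R) else 0))]
    refine Finset.sum_congr rfl fun k _ => ?_
    rw [dif_pos k.2]

theorem En_seq (P : Data R) {B : Finset R} {b : ℕ → R}
    (hb : ∀ f : R → ℝ, ∑ x ∈ B, f x = ∑ k ∈ range B.card, f (b k)) :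
    P.En B = ∑ k ∈ range B.card, ∑ l ∈ range B.card, P.ln (b k - b l) := by
  unfold Data.En
  rw [hb (fun x => ∑ y ∈ B, P.ln (x - y))]
  refine Finset.sum_congr rfl fun k _ => ?_
  exact hb (fun y => P.ln (b k - y))

/-- there is a nonzero prime ideal -/
theorem exists_prime (hF : Stmt_FACT) {C₂ : ℝ} (hM : Mert R C₂) :
    ∃ p : Ideal R, p.IsPrime ∧ p ≠ ⊥ := by
  classical
  obtain ⟨X, hX⟩ := exists_nat_gt (Real.exp C₂)
  have hX1 : 1 ≤ X := by
    have h1 : (0 : ℝ) < X := (Real.exp_pos _).trans hX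
    exact_mod_cast h1
  have h1 := hM.mer X hX1
  have h2 : C₂ < Real.log X := by
    rw [← Real.log_exp C₂]
    exact Real.log_lt_log (Real.exp_pos _) hX
  have h3 : ∑ I ∈ ids R X, Lam I / (Nm I : ℝ) ≠ 0 := by
    intro h
    rw [h, zero_sub, abs_neg] at h1
    have := le_abs_self (Real.log X)
    linarith
  obtain ⟨I, _, hI⟩ := Finset.exists_ne_zero_of_sum_ne_zero h3
  have h4 : Lam I ≠ 0 := by
    intro h
    apply hI
    rw [h, zero_div]
  obtain ⟨p, hp, h0, _⟩ := (hF R).2.2.1 I h4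
  exact ⟨p, hp, h0⟩

end Pool.NS.OPT_

namespace Pool.NS

open Pool.Agent.Work.MP_b29d7f_nt.Ded
open Pool.Agent.Work.MP_b29d7f_nt.FF (prs cls)
open Pool.NS.OPT_

/-- **OPT** -/
theorem stmt_OPT (hF : Stmt_FACT) : Stmt_OPT := by
  classical
  intro R _ _ _ _ C₂ hM
  refine ⟨C₂, ?_⟩
  intro P hP0 hP a ha C₁ hC₁ n₀
  obtain ⟨p₀, hp₀, h0⟩ := exists_prime hF hM
  have hinj : Function.Injective a := ordering_injective hp₀ h0 (ha p₀ hp₀ h0)
  obtain ⟨n, hn⟩ : ∃ n, n = Nm p₀ ^ (n₀ + 1) := ⟨_, rfl⟩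
  have hN2 : 2 ≤ Nm p₀ := one_lt_Nm hp₀ h0
  have hnn₀ : n₀ ≤ n := by
    have h1 : n₀ + 1 < 2 ^ (n₀ + 1) := Nat.lt_two_pow_self
    have h2 : 2 ^ (n₀ + 1) ≤ Nm p₀ ^ (n₀ + 1) := Nat.pow_le_pow_left hN2 _
    omega
  have hn1 : 1 ≤ n := by rw [hn]; exact Nat.one_le_pow _ _ (by omega)
  have hNmL : Nm (p₀ ^ (n₀ + 1)) = n := by rw [Nm_pow, hn]
  have hcard : ((range n).image a).card = n := by
    rw [Finset.card_image_of_injective _ hinj, Finset.card_range]
  have hLam0 := (hF R).1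
  -- facts on all prime powers
  have hlev : ∀ I : Ideal R, Lam I ≠ 0 → I ≠ ⊥ ∧ prs I a n = 2 * ∑ k ∈ range n, k / Nm I := by
    intro I hI
    obtain ⟨p, hp, hp0, i, hi, rfl⟩ := (hF R).2.2.1 I hI
    exact ⟨pow_ne_zero i hp0, level_eq hp hp0 (ha p hp hp0) n hi⟩
  -- no congruent pairs modulo `L`
  have hprs0 : prs (p₀ ^ (n₀ + 1)) a n = 0 := by
    rw [level_eq hp₀ h0 (ha p₀ hp₀ h0) n (by omega), hNmL]
    have h2 : ∑ l ∈ range n, l / n = 0 :=
      Finset.sum_eq_zero fun l hl => Nat.div_eq_of_lt (Finset.mem_range.mp hl)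
    rw [h2, mul_zero]
  have hL : ∀ k ∈ range n, ∀ l ∈ range n, a k - a l ∈ p₀ ^ (n₀ + 1) → k = l := by
    intro k hk l hl hkl
    by_contra hne
    have h3 : (((range n).erase k).filter fun i => a k - a i ∈ p₀ ^ (n₀ + 1)).card = 0 :=
      (Finset.sum_eq_zero_iff.mp hprs0) k hk
    rw [Finset.card_eq_zero] at h3
    have h4 : l ∈ ((range n).erase k).filter fun i => a k - a i ∈ p₀ ^ (n₀ + 1) :=
      Finset.mem_filter.mpr ⟨Finset.mem_erase.mpr ⟨fun h => hne h.symm, hl⟩, hkl⟩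
    rw [h3] at h4
    exact absurd h4 (Finset.notMem_empty _)
  have hsumA : ∀ f : R → ℝ, ∑ x ∈ (range n).image a, f x = ∑ k ∈ range n, f (a k) :=
    fun f => Finset.sum_image fun x _ y _ h => hinj h
  refine ⟨(range n).image a, (p₀ ^ (n₀ + 1)).toAddSubgroup, by rw [hcard]; exact hnn₀, ?_⟩
  refine ⟨?_, ?_, ?_, ?_, ?_, ?_⟩
  · rw [← Finset.card_pos, hcard]; omega
  · -- minimal energy
    intro B hB
    rw [hcard] at hB
    obtain ⟨b, hbinj, hb⟩ := exists_seq B
    have e1 := En_seq P hb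
    rw [hB] at e1 hbinj
    have e2 : P.En ((range n).image a) = ∑ k ∈ range n, ∑ l ∈ range n, P.ln (a k - a l) := by
      unfold Data.En
      rw [hsumA (fun x => ∑ y ∈ (range n).image a, P.ln (x - y))]
      exact Finset.sum_congr rfl fun k _ => hsumA (fun y => P.ln (a k - y))
    obtain ⟨X, hX⟩ : ∃ X, X = ∑ k ∈ range n, ∑ l ∈ range n, (nrm (a k - a l) + nrm (b k - b l)) :=
      ⟨_, rfl⟩
    have hXle : ∀ k ∈ range n, ∀ l ∈ range n, nrm (a k - a l) + nrm (b k - b l) ≤ X := by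
      intro k hk l hl
      rw [hX]
      have h1 : nrm (a k - a l) + nrm (b k - b l) ≤
          ∑ l ∈ range n, (nrm (a k - a l) + nrm (b k - b l)) :=
        Finset.single_le_sum (f := fun l => nrm (a k - a l) + nrm (b k - b l))
          (fun _ _ => Nat.zero_le _) hl
      have h2 : ∑ l ∈ range n, (nrm (a k - a l) + nrm (b k - b l)) ≤
          ∑ k ∈ range n, ∑ l ∈ range n, (nrm (a k - a l) + nrm (b k - b l)) :=
        Finset.single_le_sum (f := fun k => ∑ l ∈ range n, (nrm (a k - a l) + nrm (b k - b l)))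
          (fun _ _ => Nat.zero_le _) hk
      exact h1.trans h2
    have e3 := energy hF P hP0 hP (a := a) (n := n) (X := X) hinj.injOn
      (fun k hk l hl => by have := hXle k hk l hl; omega)
    have e4 := energy hF P hP0 hP (a := b) (n := n) (X := X) hbinj
      (fun k hk l hl => by have := hXle k hk l hl; omega)
    rw [e1, e2, e3, e4]
    refine Finset.sum_le_sum fun I _ => ?_
    by_cases hI : Lam I = 0
    · rw [hI, zero_mul, zero_mul]
    · obtain ⟨hI0, hI1⟩ := hlev I hI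
      apply mul_le_mul_of_nonneg_left _ (hLam0 I)
      have h5 := OPT_.prs_ge hI0 b n
      rw [← hI1] at h5
      exact_mod_cast h5
  · -- potential
    intro x hx
    rw [Finset.mem_image] at hx
    obtain ⟨k, hk, rfl⟩ := hx
    rw [hcard, hsumA (fun y => P.ln (a k - y))]
    obtain ⟨X, hX⟩ : ∃ X, X = n + ∑ k ∈ range n, ∑ l ∈ range n, nrm (a k - a l) := ⟨_, rfl⟩
    have hXle : ∀ k ∈ range n, ∀ l ∈ range n, nrm (a k - a l) ≤ X := by
      intro k hk l hl
      rw [hX]
      have h1 : nrm (a k - a l) ≤ ∑ l ∈ range n, nrm (a k - a l) :=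
        Finset.single_le_sum (f := fun l => nrm (a k - a l)) (fun _ _ => Nat.zero_le _) hl
      have h2 : ∑ l ∈ range n, nrm (a k - a l) ≤ ∑ k ∈ range n, ∑ l ∈ range n, nrm (a k - a l) :=
        Finset.single_le_sum (f := fun k => ∑ l ∈ range n, nrm (a k - a l))
          (fun _ _ => Nat.zero_le _) hk
      omega
    rw [potential hF P hP0 hP hinj.injOn hXle hk]
    -- every term is at most `Lam I * ⌊n / Nm I⌋`
    have h1 : ∀ I ∈ ids R X, Lam I *
        ((((range n).erase k).filter fun l => a k - a l ∈ I).card : ℝ) ≤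
        Lam I * ((n / Nm I : ℕ) : ℝ) := by
      intro I _
      by_cases hI : Lam I = 0
      · rw [hI, zero_mul, zero_mul]
      · obtain ⟨hI0, hI1⟩ := hlev I hI
        apply mul_le_mul_of_nonneg_left _ (hLam0 I)
        have h2 := cls_le hI0 hI1 (Ideal.Quotient.mk I (a k))
        have h3 : ((range n).filter fun l => Ideal.Quotient.mk I (a l) = Ideal.Quotient.mk I (a k)) =
            insert k (((range n).erase k).filter fun l => a k - a l ∈ I) := by
          ext l
          rw [Finset.mem_insert, Finset.mem_filter, Finset.mem_filter, Finset.mem_erase]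
          rw [eq_comm (a := Ideal.Quotient.mk I (a l)), Ideal.Quotient.eq]
          constructor
          · intro h
            by_cases hl : l = k
            · exact Or.inl hl
            · exact Or.inr ⟨⟨hl, h.1⟩, h.2⟩
          · rintro (h | h)
            · subst h
              rw [sub_self]
              exact ⟨hk, I.zero_mem⟩
            · exact ⟨h.1.2, h.2⟩
        unfold cls at h2
        rw [h3, Finset.card_insert_of_notMem] at h2
        · have h4 : (((range n).erase k).filter fun l => a k - a l ∈ I).card ≤ n / Nm I := by omega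
          exact_mod_cast h4
        · intro h4
          exact (Finset.mem_erase.mp (Finset.mem_filter.mp h4).1).1 rfl
    refine (Finset.sum_le_sum h1).trans ?_
    -- only the ideals of norm at most `n` contribute
    have h2 : ∑ I ∈ ids R X, Lam I * ((n / Nm I : ℕ) : ℝ) = ∑ I ∈ ids R n, Lam I * ((n / Nm I : ℕ) : ℝ) := by
      symm
      apply Finset.sum_subset
      · intro I hI
        rw [mem_ids] at hI ⊢
        exact ⟨hI.1, by omega⟩
      · intro I hI hI'
        rw [mem_ids] at hI hI'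
        have h3 : n < Nm I := by
          by_contra h
          exact hI' ⟨hI.1, by omega⟩
        rw [Nat.div_eq_of_lt h3]
        simp
    rw [h2]
    have h3 : ∑ I ∈ ids R n, Lam I * ((n / Nm I : ℕ) : ℝ) ≤ n * ∑ I ∈ ids R n, Lam I / (Nm I : ℝ) := by
      rw [Finset.mul_sum]
      refine Finset.sum_le_sum fun I hI => ?_
      rw [mem_ids] at hI
      have h4 : (0 : ℝ) < Nm I := by exact_mod_cast Nm_pos hI.1
      have h5 : ((n / Nm I : ℕ) : ℝ) ≤ n / Nm I := Nat.cast_div_le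
      calc Lam I * ((n / Nm I : ℕ) : ℝ) ≤ Lam I * (n / Nm I) := mul_le_mul_of_nonneg_left h5 (hLam0 I)
        _ = n * (Lam I / Nm I) := by ring
    refine h3.trans ?_
    apply mul_le_mul_of_nonneg_left _ (Nat.cast_nonneg _)
    have h4 := (abs_le.mp (hM.mer n hn1)).2
    linarith
  · -- injective
    intro x hx y hy hxy
    rw [Finset.mem_image] at hx hy
    obtain ⟨k, hk, rfl⟩ := hx
    obtain ⟨l, hl, rfl⟩ := hy
    have hxy' : a k - a l ∈ p₀ ^ (n₀ + 1) := hxy
    rw [hL k hk l hl hxy']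
  · -- surjective
    have hL0 : p₀ ^ (n₀ + 1) ≠ ⊥ := pow_ne_zero _ h0
    have hfin : Finite (R ⧸ p₀ ^ (n₀ + 1)) := Ring.HasFiniteQuotients.finiteQuotient hL0
    have hft := Fintype.ofFinite (R ⧸ p₀ ^ (n₀ + 1))
    have hcardQ : Fintype.card (R ⧸ p₀ ^ (n₀ + 1)) = n := by
      rw [← Nat.card_eq_fintype_card]
      exact hNmL
    have himg : ((range n).image fun k => Ideal.Quotient.mk (p₀ ^ (n₀ + 1)) (a k)) = univ := by
      apply Finset.eq_univ_of_card
      rw [hcardQ, Finset.card_image_of_injOn, Finset.card_range]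
      intro k hk l hl hkl
      have h1 : a k - a l ∈ p₀ ^ (n₀ + 1) := Ideal.Quotient.eq.mp hkl
      exact hL k (Finset.mem_coe.1 hk) l (Finset.mem_coe.1 hl) h1
    intro x
    have h1 : Ideal.Quotient.mk (p₀ ^ (n₀ + 1)) x ∈
        ((range n).image fun k => Ideal.Quotient.mk (p₀ ^ (n₀ + 1)) (a k)) := by
      rw [himg]; exact Finset.mem_univ _
    rw [Finset.mem_image] at h1
    obtain ⟨k, hk, hkx⟩ := h1
    exact ⟨a k, Finset.mem_image_of_mem a hk, Ideal.Quotient.eq.mp hkx.symm⟩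
  · -- large norms
    intro x hx hx0
    have hx' : x ∈ p₀ ^ (n₀ + 1) := hx
    rw [hcard, hP x hx0]
    have h1 := Nm_le_nrm hx' hx0
    rw [hNmL] at h1
    exact Real.log_le_log (by exact_mod_cast hn1) (by exact_mod_cast h1)

end Pool.NS
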